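import Mathlib

namespace Pool.Agent.Results.MP_213d49_co.Sixteenth

open Finset
open Classical

variable {n : ℕ}

/-- `X` is a dominating set of `G` -/
def Dom (G : SimpleGraph (Fin n)) (X : Finset (Fin n)) : Prop := ∀ v, v ∉ X → ∃ u ∈ X, G.Adj v u

/-- `X` is a `k`-minimal dominating set of `G` -/
def KMin (G : SimpleGraph (Fin n)) (k : ℕ) (X : Finset (Fin n)) : Prop :=
  Dom G X ∧ ∀ l, 1 ≤ l → l ≤ k → ∀ U ⊆ X, U.card = l → ∀ R : Finset (Fin n), R.card = l - 1 →
    ¬ Dom G ((X \ U) ∪ R)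

/-- `Γ_k(G)`: the largest size of a `k`-minimal dominating set -/
noncomputable def Gam (G : SimpleGraph (Fin n)) (k : ℕ) : ℕ := (univ.filter (KMin G k)).sup card

/-- `g(n,k)`: the maximum of `Γ_k(G) Γ_k(Gᶜ)` over graphs on `n` vertices -/
noncomputable def g (n k : ℕ) : ℕ := univ.sup (fun G : SimpleGraph (Fin n) => Gam G k * Gam Gᶜ k)

/-- private vertices of `u` for the reflexive relation `D` -/
noncomputable def P (D : Fin n → Fin n → Prop) (X : Finset (Fin n)) (u : Fin n) : Finset (Fin n) :=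
  univ.filter (fun v => D v u ∧ ∀ x ∈ X, D v x → x = u)

/-- members of `X` all of whose private vertices are dominated by `w` -/
noncomputable def B (D : Fin n → Fin n → Prop) (X : Finset (Fin n)) (w : Fin n) : Finset (Fin n) :=
  X.filter (fun u => ∀ v ∈ P D X u, D v w)

lemma memP {D : Fin n → Fin n → Prop} {X : Finset (Fin n)} {u v : Fin n} :
    v ∈ P D X u ↔ D v u ∧ ∀ x ∈ X, D v x → x = u := by simp [P]

lemma memB {D : Fin n → Fin n → Prop} {X : Finset (Fin n)} {u w : Fin n} :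
    u ∈ B D X w ↔ u ∈ X ∧ ∀ v ∈ P D X u, D v w := by simp only [B, mem_filter]

lemma sumP (D : Fin n → Fin n → Prop) (X : Finset (Fin n)) : ∑ u ∈ X, (P D X u).card ≤ n := by
  rw [← card_biUnion]
  · simpa using card_le_univ (X.biUnion (P D X))
  · intro u hu u' hu' h
    refine disjoint_left.2 fun v h1 h2 => h ?_
    exact (memP.1 h2).2 u hu (memP.1 h1).1

lemma B_le {G : SimpleGraph (Fin n)} {k : ℕ} {X : Finset (Fin n)} (hk : 2 ≤ k) (h : KMin G k X) (w : Fin n) :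
    (B (fun v u => v = u ∨ G.Adj v u) X w).card.choose 2 ≤ n := by
  set D : Fin n → Fin n → Prop := fun v u => v = u ∨ G.Adj v u with hD
  have key : ∀ U ∈ powersetCard 2 (B D X w), ∃ v, X.filter (D v) = U := by
    intro U hU
    obtain ⟨h1, h2⟩ := mem_powersetCard.1 hU
    have hX : U ⊆ X := fun x hx => (memB.1 (h1 hx)).1
    have := h.2 2 (by omega) hk U hX h2 {w} (by simp)
    simp only [Dom, not_forall, not_exists, not_and] at this
    obtain ⟨v, hv, hv2⟩ := this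
    have sub : X.filter (D v) ⊆ U := by
      intro x hx
      obtain ⟨hx1, hx2⟩ := mem_filter.1 hx
      by_contra hn
      have hm : x ∈ X \ U ∪ {w} := mem_union_left _ (mem_sdiff.2 ⟨hx1, hn⟩)
      rcases hx2 with rfl | hx2
      · exact hv hm
      · exact hv2 x hm hx2
    have nw : ¬ D v w := by
      have hm : w ∈ X \ U ∪ {w} := by simp
      rintro (rfl | h)
      · exact hv hm
      · exact hv2 w hm h
    refine ⟨v, eq_of_subset_of_card_le sub ?_⟩
    by_contra hlt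
    have hne : (X.filter (D v)).Nonempty := by
      by_cases hvX : v ∈ X
      · exact ⟨v, mem_filter.2 ⟨hvX, Or.inl rfl⟩⟩
      · obtain ⟨u, hu, hu2⟩ := h.1 v hvX
        exact ⟨u, mem_filter.2 ⟨hu, Or.inr hu2⟩⟩
    obtain ⟨u, hu⟩ := hne
    have h3 : (X.filter (D v)).card ≤ 1 := by omega
    exact nw ((memB.1 (h1 (sub hu))).2 v (memP.2 ⟨(mem_filter.1 hu).2,
      fun x hx hd => card_le_one.1 h3 _ (mem_filter.2 ⟨hx, hd⟩) _ hu⟩))
  rw [← card_powersetCard]
  have : powersetCard 2 (B D X w) ⊆ univ.image (fun v => X.filter (D v)) := fun U hU => by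
    obtain ⟨v, hv⟩ := key U hU
    exact mem_image.2 ⟨v, mem_univ _, hv⟩
  simpa using (card_le_card this).trans card_image_le

section core

variable {D E : Fin n → Fin n → Prop} {X Y : Finset (Fin n)} {s : ℕ}

lemma card_pairs_le (A C : Finset (Fin n)) (F : Fin n → Finset (Fin n)) (m : ℕ) (h : ∀ a, (F a).card ≤ m) :
    ((A ×ˢ C).filter (fun p => p.2 ∈ F p.1)).card ≤ m * A.card := by
  refine le_trans (card_le_card (t := A.biUnion (fun a => (F a).image (fun c => (a, c)))) fun p hp => ?_) ?_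
  · simp only [mem_filter, mem_product] at hp
    exact mem_biUnion.2 ⟨p.1, hp.1.1, mem_image.2 ⟨p.2, hp.2, rfl⟩⟩
  · rw [mul_comm]
    exact card_biUnion_le_card_mul _ _ _ fun a _ => card_image_le.trans (h a)

lemma lemA (sD : ∀ v w, D v w → D w v) (sE : ∀ v w, E v w → E w v) (tot : ∀ v w, D v w ∨ E v w)
    (hB : ∀ w, (B D X w).card ≤ s) (hB' : ∀ w, (B E Y w).card ≤ s) :
    (X.filter (fun u => (P D X u \ Y).card ≤ 1)).card * Y.card ≤ 2 * s * n + n := by
  set Xe := X.filter (fun u => (P D X u \ Y).card ≤ 1)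
  have hc : ∀ u, ∃ c, u ∈ Xe → P D X u \ Y ⊆ {c} := fun u => by
    by_cases hu : u ∈ Xe
    · have : Nonempty (Fin n) := ⟨u⟩
      obtain ⟨c, hc⟩ := card_le_one_iff_subset_singleton.1 (mem_filter.1 hu).2
      exact ⟨c, fun _ => hc⟩
    · exact ⟨u, fun h => absurd h hu⟩
  choose c hc using hc
  have sub : Xe ×ˢ Y ⊆ ((Xe ×ˢ Y).filter (fun p => p.2 ∈ B E Y (c p.1)) ∪
      Xe.biUnion (fun u => (P D X u).image (fun y => (u, y)))) ∪
      Y.biUnion (fun y => (P E Y y).biUnion (fun w => (B D X w).image (fun u => (u, y)))) := by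
    rintro ⟨u, y⟩ hp
    obtain ⟨hu, hy⟩ := mem_product.1 hp
    simp only [mem_union, mem_filter, mem_biUnion, mem_image, Prod.mk.injEq]
    by_cases h1 : y ∈ B E Y (c u)
    · exact Or.inl (Or.inl ⟨hp, h1⟩)
    by_cases h2 : y ∈ P D X u
    · exact Or.inl (Or.inr ⟨u, hu, y, h2, rfl, rfl⟩)
    simp only [B, mem_filter, not_and, not_forall] at h1
    obtain ⟨w, hw, hw2⟩ := h1 hy
    refine Or.inr ⟨y, hy, w, hw, u, mem_filter.2 ⟨(mem_filter.1 hu).1, fun v hv => ?_⟩, rfl, rfl⟩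
    by_cases hvY : v ∈ Y
    · refine sD _ _ ((tot w v).resolve_right fun he => h2 ?_)
      exact (memP.1 hw).2 v hvY he ▸ hv
    · obtain rfl := mem_singleton.1 (hc u hu (mem_sdiff.2 ⟨hv, hvY⟩))
      exact sD _ _ ((tot _ _).resolve_right hw2)
  have h1 := card_pairs_le Xe Y (fun u => B E Y (c u)) s (fun u => hB' _)
  have h2 : (Xe.biUnion (fun u => (P D X u).image (fun y => (u, y)))).card ≤ n :=
    card_biUnion_le.trans ((sum_le_sum fun u _ => card_image_le).trans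
      ((sum_le_sum_of_subset (filter_subset _ _)).trans (sumP D X)))
  have h3 : (Y.biUnion (fun y => (P E Y y).biUnion (fun w => (B D X w).image (fun u => (u, y))))).card ≤ n * s := by
    refine card_biUnion_le.trans (le_trans (sum_le_sum fun y _ => card_biUnion_le_card_mul _ _ s
      fun w _ => card_image_le.trans (hB w)) ?_)
    rw [← sum_mul]
    exact Nat.mul_le_mul_right _ (sumP E Y)
  have h4 := (card_le_card sub).trans ((card_union_le _ _).trans (Nat.add_le_add_right (card_union_le _ _) _))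
  have h5 : Xe.card ≤ n := by simpa using card_le_univ Xe
  rw [card_product] at h4
  nlinarith [Nat.mul_le_mul_left s h5]

lemma lemB (sD : ∀ v w, D v w → D w v) (sE : ∀ v w, E v w → E w v) (tot : ∀ v w, D v w ∨ E v w)
    (hB : ∀ w, (B D X w).card ≤ s) (hB' : ∀ w, (B E Y w).card ≤ s) :
    (X.filter (fun u => P D X u \ Y.biUnion (P E Y) ⊆ {u})).card *
      (Y.filter (fun y => P E Y y \ X.biUnion (P D X) ⊆ {y})).card ≤
      s * (X.filter (fun u => P D X u \ Y.biUnion (P E Y) ⊆ {u})).card +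
      s * (Y.filter (fun y => P E Y y \ X.biUnion (P D X) ⊆ {y})).card + n := by
  set X1 := X.filter (fun u => P D X u \ Y.biUnion (P E Y) ⊆ {u})
  set Y1 := Y.filter (fun y => P E Y y \ X.biUnion (P D X) ⊆ {y})
  set Z := (X1 ×ˢ Y1).filter (fun p => ∃ v, v ∈ P D X p.1 ∧ v ∈ P E Y p.2)
  have sub : X1 ×ˢ Y1 ⊆ ((X1 ×ˢ Y1).filter (fun p => p.2 ∈ B E Y p.1) ∪
      ((Y1 ×ˢ X1).filter (fun p => p.2 ∈ B D X p.1)).image Prod.swap) ∪ Z := by
    rintro ⟨u, y⟩ hp
    obtain ⟨hu, hy⟩ := mem_product.1 hp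
    obtain ⟨huX, hu2⟩ := mem_filter.1 hu
    obtain ⟨hyY, hy2⟩ := mem_filter.1 hy
    by_cases h1 : y ∈ B E Y u
    · exact mem_union_left _ (mem_union_left _ (mem_filter.2 ⟨hp, h1⟩))
    by_cases h2 : u ∈ B D X y
    · exact mem_union_left _ (mem_union_right _ (mem_image.2 ⟨(y, u), mem_filter.2 ⟨mem_product.2 ⟨hy, hu⟩, h2⟩, rfl⟩))
    refine mem_union_right _ (mem_filter.2 ⟨hp, ?_⟩)
    by_contra hz
    push Not at hz
    simp only [B, mem_filter, not_and, not_forall] at h1 h2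
    obtain ⟨w, hw, hw2⟩ := h1 hyY
    obtain ⟨v, hv, hv2⟩ := h2 huX
    have e1 : v = u := by
      refine mem_singleton.1 (hu2 (mem_sdiff.2 ⟨hv, fun h => ?_⟩))
      obtain ⟨y', -, h⟩ := mem_biUnion.1 h
      have := (memP.1 h).2 y hyY ((tot _ _).resolve_left hv2)
      exact hz v hv (this ▸ h)
    have e2 : w = y := by
      refine mem_singleton.1 (hy2 (mem_sdiff.2 ⟨hw, fun h => ?_⟩))
      obtain ⟨u', -, h⟩ := mem_biUnion.1 h
      have := (memP.1 h).2 u huX ((tot _ _).resolve_right hw2)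
      exact hz w (this ▸ h) hw
    subst e1 e2
    exact hw2 (sE _ _ ((tot _ _).resolve_left hv2))
  have h1 := card_pairs_le X1 Y1 (B E Y) s hB'
  have h2 := card_pairs_le Y1 X1 (B D X) s hB
  have h3 : Z.card ≤ n := by
    have hc : ∀ p : Fin n × Fin n, ∃ v, p ∈ Z → v ∈ P D X p.1 ∧ v ∈ P E Y p.2 := fun p => by
      by_cases h : p ∈ Z
      · obtain ⟨v, hv⟩ := (mem_filter.1 h).2; exact ⟨v, fun _ => hv⟩
      · exact ⟨p.1, fun h' => absurd h' h⟩
    choose f hf using hc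
    refine le_trans (card_le_card_of_injOn (t := univ) f (by simp) fun p hp p' hp' h => ?_) (by simp)
    have a1 := hf p hp
    have a2 := hf p' hp'
    rw [← h] at a2
    have b1 := mem_product.1 (mem_filter.1 hp).1
    exact Prod.ext ((memP.1 a2.1).2 _ (mem_filter.1 b1.1).1 (memP.1 a1.1).1)
      ((memP.1 a2.2).2 _ (mem_filter.1 b1.2).1 (memP.1 a1.2).1)
  have h4 := (card_le_card sub).trans ((card_union_le _ _).trans (Nat.add_le_add_right
    ((card_union_le _ _).trans (Nat.add_le_add_left card_image_le _)) _))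
  rw [card_product] at h4
  omega

lemma lemC (rE : ∀ v, E v v) :
    2 * X.card + 2 * Y.card ≤ n + 2 * (X.filter (fun u => (P D X u \ Y).card ≤ 1)).card +
      (Y.filter (fun y => P E Y y \ X.biUnion (P D X) ⊆ {y})).card := by
  have h1 : 2 * X.card ≤ ∑ u ∈ X, (P D X u \ Y).card + 2 * (X.filter (fun u => (P D X u \ Y).card ≤ 1)).card := by
    rw [card_filter, mul_sum, ← sum_add_distrib, mul_comm, ← smul_eq_mul, ← sum_const]
    exact sum_le_sum fun u _ => by split_ifs <;> omega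
  have h2 : 2 * Y.card ≤ ∑ y ∈ Y, (insert y (P E Y y \ X.biUnion (P D X))).card +
      (Y.filter (fun y => P E Y y \ X.biUnion (P D X) ⊆ {y})).card := by
    rw [card_filter, ← sum_add_distrib, mul_comm, ← smul_eq_mul, ← sum_const]
    refine sum_le_sum fun y _ => ?_
    split_ifs with h
    · have := card_pos.2 (insert_nonempty y (P E Y y \ X.biUnion (P D X))); omega
    · obtain ⟨v, hv, hv2⟩ := not_subset.1 h
      have := one_lt_card.2 ⟨y, mem_insert_self _ _, v, mem_insert_of_mem hv, fun h => hv2 (by simp [h])⟩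
      omega
  have h3 : ∑ u ∈ X, (P D X u \ Y).card + ∑ y ∈ Y, (insert y (P E Y y \ X.biUnion (P D X))).card ≤ n := by
    rw [← card_biUnion, ← card_biUnion, ← card_union_of_disjoint]
    · exact (card_le_univ _).trans (by simp)
    · refine disjoint_left.2 fun v h1 h2 => ?_
      obtain ⟨u, hu, h1⟩ := mem_biUnion.1 h1
      obtain ⟨y, hy, h2⟩ := mem_biUnion.1 h2
      rcases mem_insert.1 h2 with rfl | h2
      · exact (mem_sdiff.1 h1).2 hy
      · exact (mem_sdiff.1 h2).2 (mem_biUnion.2 ⟨u, hu, (mem_sdiff.1 h1).1⟩)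
    · intro y hy y' hy' h
      refine disjoint_left.2 fun v h1 h2 => h ?_
      rcases mem_insert.1 h1 with rfl | h1 <;> rcases mem_insert.1 h2 with h2 | h2
      · exact h2
      · exact (memP.1 (mem_sdiff.1 h2).1).2 _ hy (rE _)
      · subst h2; exact ((memP.1 (mem_sdiff.1 h1).1).2 _ hy' (rE _)).symm
      · exact (memP.1 (mem_sdiff.1 h2).1).2 _ hy (memP.1 (mem_sdiff.1 h1).1).1
    · intro u hu u' hu' h
      refine disjoint_left.2 fun v h1 h2 => h ?_
      exact (memP.1 (mem_sdiff.1 h2).1).2 u hu (memP.1 (mem_sdiff.1 h1).1).1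
  omega

lemma arith (x y e z s n : ℕ) (he : e ≤ x) (h1 : e * y ≤ 2 * s * n + n) (h2 : 2 * x + 2 * y ≤ n + 2 * e + z)
    (h3 : z ≤ 3 * s) : 16 * (x * y) ≤ (n + 3 * s) ^ 2 + 16 * (2 * s * n + n) := by
  obtain ⟨d, rfl⟩ := Nat.exists_eq_add_of_le he
  have h4 : 2 * d + 2 * y ≤ n + 3 * s := by omega
  have h5 : 16 * (d * y) ≤ (2 * d + 2 * y) ^ 2 := by nlinarith [sq_nonneg ((d : ℤ) - y)]
  have := Nat.pow_le_pow_left h4 2
  nlinarith

lemma core (sD : ∀ v w, D v w → D w v) (sE : ∀ v w, E v w → E w v) (tot : ∀ v w, D v w ∨ E v w)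
    (rD : ∀ v, D v v) (rE : ∀ v, E v v) (hB : ∀ w, (B D X w).card ≤ s) (hB' : ∀ w, (B E Y w).card ≤ s)
    (hs : n ≤ s * s) : 16 * (X.card * Y.card) ≤ (n + 3 * s) ^ 2 + 16 * (2 * s * n + n) := by
  have tot' : ∀ v w, E v w ∨ D v w := fun v w => (tot v w).symm
  have hb := lemB sD sE tot hB hB'
  by_cases h : (Y.filter (fun y => P E Y y \ X.biUnion (P D X) ⊆ {y})).card ≤ 3 * s
  · exact arith _ _ _ _ _ _ (card_filter_le _ _) (lemA sD sE tot hB hB') (lemC rE) h
  · rw [mul_comm X.card]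
    refine arith _ _ _ _ _ _ (card_filter_le _ _) (lemA sE sD tot' hB' hB) (lemC rD) ?_
    by_contra h'
    push Not at h h'
    nlinarith

end core

lemma upper {k : ℕ} (hk : 2 ≤ k) : 16 * g n k ≤ n ^ 2 + 200 * n * (Nat.sqrt n + 1) := by
  have hs : ∀ m : ℕ, m.choose 2 ≤ n → m ≤ 2 * (Nat.sqrt n + 1) := fun m hm => by
    by_contra h
    have h1 := Nat.choose_le_choose 2 (show 2 * (Nat.sqrt n + 1) + 1 ≤ m by omega)
    rw [Nat.choose_two_right, Nat.add_sub_cancel, mul_comm, mul_assoc, Nat.mul_div_cancel_left _ (by omega)] at h1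
    have := Nat.lt_succ_sqrt n
    nlinarith
  obtain ⟨G, -, hG⟩ := exists_mem_eq_sup (univ : Finset (SimpleGraph (Fin n))) univ_nonempty
    (fun G => Gam G k * Gam Gᶜ k)
  rw [g, hG]
  rcases (univ.filter (KMin G k)).eq_empty_or_nonempty with h | h
  · simp [Gam, h]
  rcases (univ.filter (KMin Gᶜ k)).eq_empty_or_nonempty with h' | h'
  · simp [Gam, h']
  obtain ⟨X, hX, e1⟩ := exists_mem_eq_sup _ h card
  obtain ⟨Y, hY, e2⟩ := exists_mem_eq_sup _ h' card
  rw [Gam, Gam, e1, e2]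
  have := core (s := 2 * (Nat.sqrt n + 1)) (D := fun v u => v = u ∨ G.Adj v u) (E := fun v u => v = u ∨ Gᶜ.Adj v u)
    (fun v w h => h.imp Eq.symm (·.symm)) (fun v w h => h.imp Eq.symm (·.symm))
    (fun v w => by simp only [SimpleGraph.compl_adj]; tauto) (fun v => Or.inl rfl) (fun v => Or.inl rfl)
    (fun w => hs _ (B_le hk (mem_filter.1 hX).2 w)) (fun w => hs _ (B_le hk (mem_filter.1 hY).2 w))
    (by have := Nat.lt_succ_sqrt n; nlinarith)
  rcases Nat.eq_zero_or_pos n with rfl | hn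
  · have : X = ∅ := Subsingleton.elim _ _
    simp [this]
  have h1 := Nat.sqrt_le_self n
  generalize Nat.sqrt n = r at *
  have h2 : (r + 1) * (r + 1) ≤ 2 * n * (r + 1) := Nat.mul_le_mul_right _ (by omega)
  nlinarith


lemma kmin_two {G : SimpleGraph (Fin n)} {X : Finset (Fin n)} (h : Dom G X) (p : Fin n → Fin n)
    (h1 : ∀ u ∈ X, p u ∉ X ∧ ∀ x ∈ X, G.Adj (p u) x → x = u) (h2 : ∀ u ∈ X, ∀ x ∈ X, ¬ G.Adj u x)
    (h3 : ∀ u ∈ X, ∀ u' ∈ X, u ≠ u' → ∀ w, (w ≠ u ∧ ¬ G.Adj u w) ∨ (w ≠ p u ∧ ¬ G.Adj (p u) w) ∨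
      (w ≠ u' ∧ ¬ G.Adj u' w) ∨ (w ≠ p u' ∧ ¬ G.Adj (p u') w)) : KMin G 2 X := by
  refine ⟨h, fun l hl hl2 U hU hc R hR hd => ?_⟩
  have k1 : ∀ u ∈ U, (∀ w ∈ R, w ≠ u ∧ ¬ G.Adj u w) → False := fun u hu hw => by
    obtain ⟨x, hx, ha⟩ := hd u (by
      simp only [mem_union, mem_sdiff, not_or]
      exact ⟨fun h => h.2 hu, fun h => (hw u h).1 rfl⟩)
    rcases mem_union.1 hx with hx | hx
    · exact h2 u (hU hu) x (mem_sdiff.1 hx).1 ha
    · exact (hw x hx).2 ha
  have k2 : ∀ u ∈ U, (∀ w ∈ R, w ≠ p u ∧ ¬ G.Adj (p u) w) → False := fun u hu hw => by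
    obtain ⟨x, hx, ha⟩ := hd (p u) (by
      simp only [mem_union, mem_sdiff, not_or]
      exact ⟨fun h => (h1 u (hU hu)).1 h.1, fun h => (hw _ h).1 rfl⟩)
    rcases mem_union.1 hx with hx | hx
    · exact (mem_sdiff.1 hx).2 ((h1 u (hU hu)).2 x (mem_sdiff.1 hx).1 ha ▸ hu)
    · exact (hw x hx).2 ha
  obtain rfl | rfl : l = 1 ∨ l = 2 := by omega
  · obtain ⟨u, rfl⟩ := card_eq_one.1 hc
    obtain rfl := card_eq_zero.1 hR
    exact k1 u (by simp) (by simp)
  · obtain ⟨u, u', hne, rfl⟩ := card_eq_two.1 hc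
    obtain ⟨w, rfl⟩ := card_eq_one.1 hR
    rcases h3 u (hU (by simp)) u' (hU (by simp)) hne w with h | h | h | h
    · exact k1 u (by simp) (by simpa using h)
    · exact k2 u (by simp) (by simpa using h)
    · exact k1 u' (by simp) (by simpa using h)
    · exact k2 u' (by simp) (by simpa using h)

/-- adjacency between (type, index) pairs in the extremal graph -/
def rel (a i b j : ℕ) : Prop :=
  (a = 0 ∧ b = 1 ∧ i = j) ∨ (2 ≤ a ∧ a = b) ∨ (a = 2 ∧ b = 3 ∧ i ≠ j) ∨ (a = 0 ∧ b = 2 ∧ i ≠ j) ∨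
    (a = 1 ∧ b = 3) ∨ (a = 0 ∧ b = 3 ∧ i = 0)

lemma lower (hn : 8 ≤ n) : (n / 4) ^ 2 ≤ g n 2 := by
  set t := n / 4 with ht
  obtain ⟨ty, hty⟩ : ∃ ty : Fin n → ℕ, ∀ v, ty v = if (v : ℕ) < 4 * t then (v : ℕ) % 4 else 1 := ⟨_, fun _ => rfl⟩
  obtain ⟨ix, hix⟩ : ∃ ix : Fin n → ℕ, ∀ v, ix v = if (v : ℕ) < 4 * t then (v : ℕ) / 4 else 0 := ⟨_, fun _ => rfl⟩
  obtain ⟨mk, mk1, mk2⟩ : ∃ mk : ℕ → ℕ → Fin n, (∀ a < 4, ∀ i < t, ty (mk a i) = a) ∧ ∀ a < 4, ∀ i < t, ix (mk a i) = i := by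
    refine ⟨fun a i => if h : a < 4 ∧ i < t then ⟨4 * i + a, by omega⟩ else ⟨0, by omega⟩, fun a ha i hi => ?_, fun a ha i hi => ?_⟩
    · simp only [hty, dif_pos (And.intro ha hi)]; rw [if_pos (by omega)]; omega
    · simp only [hix, dif_pos (And.intro ha hi)]; rw [if_pos (by omega)]; omega
  have b1 : ∀ v, ty v < 4 := fun v => by rw [hty]; split_ifs <;> omega
  have b2 : ∀ v, ix v < t := fun v => by rw [hix]; split_ifs <;> omega
  have inj : ∀ v w, ty v ≠ 1 → ty v = ty w → ix v = ix w → v = w := fun v w h1 h2 h3 => by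
    rw [hty] at h1 h2; rw [hix] at h3; rw [hty] at h2; rw [hix] at h3
    apply Fin.ext
    split_ifs at h1 h2 h3 <;> omega
  obtain ⟨G, hG⟩ : ∃ G : SimpleGraph (Fin n), ∀ v w, G.Adj v w ↔
      v ≠ w ∧ (rel (ty v) (ix v) (ty w) (ix w) ∨ rel (ty w) (ix w) (ty v) (ix v)) :=
    ⟨SimpleGraph.fromRel (fun v w => rel (ty v) (ix v) (ty w) (ix w)), fun _ _ => by simp⟩
  have cd : ∀ a < 4, t ≤ (univ.filter (fun v => ty v = a)).card := fun a ha => by
    rw [← card_range t]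
    refine card_le_card_of_injOn (mk a) (fun i hi => by simpa using mk1 a ha i (by simpa using hi)) fun i hi j hj h => ?_
    rw [← mk2 a ha i (by simpa using hi), h, mk2 a ha j (by simpa using hj)]
  have t2 : 2 ≤ t := by omega
  have nd : ∀ a w, ((ty w ≠ ty a ∨ ix w ≠ ix a) ∧ ¬ (rel (ty a) (ix a) (ty w) (ix w) ∨ rel (ty w) (ix w) (ty a) (ix a))) →
      (w ≠ a ∧ ¬ G.Adj a w) := fun a w h => ⟨by rintro rfl; simp at h, fun h' => h.2 ((hG _ _).1 h').2⟩
  have nd' : ∀ a w, ((ty w ≠ ty a ∨ ix w ≠ ix a) ∧ (rel (ty a) (ix a) (ty w) (ix w) ∨ rel (ty w) (ix w) (ty a) (ix a))) →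
      (w ≠ a ∧ ¬ Gᶜ.Adj a w) := fun a w h => ⟨by rintro rfl; simp at h, fun h' => h'.2 ((hG _ _).2 ⟨h'.1, h.2⟩)⟩
  have hX : KMin G 2 (univ.filter (fun v => ty v = 0)) := by
    refine kmin_two (fun v hv => ?_) (fun u => mk 1 (ix u)) (fun u hu => ?_) (fun u hu x hx => ?_) (fun u hu u' hu' hne w => ?_)
    · have := b1 v
      have := b2 v
      simp only [mem_filter, mem_univ, true_and] at hv ⊢
      obtain ⟨j, hj, hj2⟩ : ∃ j < t, (ty v = 1 → j = ix v) ∧ (ty v = 2 → j ≠ ix v) ∧ (ty v = 3 → j = 0) := by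
        by_cases h : ty v = 1
        · exact ⟨ix v, by omega, by omega⟩
        by_cases h : ty v = 2 ∧ ix v = 0
        · exact ⟨1, by omega, by omega⟩
        exact ⟨0, by omega, by omega⟩
      have e1 := mk1 0 (by omega) j hj
      have e2 := mk2 0 (by omega) j hj
      refine ⟨mk 0 j, e1, (hG _ _).2 ⟨fun h => hv (h ▸ e1), Or.inr ?_⟩⟩
      rw [e1, e2, rel]; omega
    · have e1 := mk1 1 (by omega) _ (b2 u)
      have e2 := mk2 1 (by omega) _ (b2 u)
      simp only [mem_filter, mem_univ, true_and, hG, e1, e2, rel] at hu ⊢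
      exact ⟨by omega, fun x hx h => inj _ _ (by omega) (by omega) (by omega)⟩
    · simp only [mem_filter, mem_univ, true_and, hG, rel] at hu hx ⊢
      omega
    · have e1 := mk1 1 (by omega) _ (b2 u)
      have e2 := mk2 1 (by omega) _ (b2 u)
      have e3 := mk1 1 (by omega) _ (b2 u')
      have e4 := mk2 1 (by omega) _ (b2 u')
      simp only [mem_filter, mem_univ, true_and] at hu hu'
      have e5 : ix u ≠ ix u' := fun h => hne (inj _ _ (by omega) (by omega) h)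
      have := b1 w
      obtain h | h | h | h : ty w = 0 ∨ ty w = 1 ∨ ty w = 2 ∨ ty w = 3 := by omega
      · by_cases h' : ix w = ix u
        · exact Or.inr (Or.inr (Or.inl (nd _ w (by simp [hu', h, h', rel, e5]))))
        · exact Or.inl (nd _ w (by simp [hu, h, h', rel]))
      · by_cases h' : ix w = ix u
        · exact Or.inr (Or.inr (Or.inl (nd _ w (by simp [hu', h, h', rel, e5.symm]))))
        · exact Or.inl (nd _ w (by simp [hu, h, Ne.symm h', rel]))
      · exact Or.inr (Or.inl (nd _ w (by simp [e1, h, rel])))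
      · by_cases h' : ix u = 0
        · exact Or.inr (Or.inr (Or.inl (nd _ w (by simp [hu', h, rel]; omega))))
        · exact Or.inl (nd _ w (by simp [hu, h, h', rel]))
  have hY : KMin Gᶜ 2 (univ.filter (fun v => ty v = 2)) := by
    refine kmin_two (fun v hv => ?_) (fun u => mk 3 (ix u)) (fun u hu => ?_) (fun u hu x hx => ?_) (fun u hu u' hu' hne w => ?_)
    · have := b1 v
      have e1 := mk1 2 (by omega) _ (b2 v)
      have e2 := mk2 2 (by omega) _ (b2 v)
      simp only [mem_filter, mem_univ, true_and] at hv ⊢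
      refine ⟨mk 2 (ix v), e1, fun h => hv (h ▸ e1), ?_⟩
      simp only [hG, e1, e2, rel]; omega
    · have e1 := mk1 3 (by omega) _ (b2 u)
      have e2 := mk2 3 (by omega) _ (b2 u)
      simp only [mem_filter, mem_univ, true_and, SimpleGraph.compl_adj, hG, e1, e2, rel] at hu ⊢
      refine ⟨by omega, fun x hx h => inj _ _ (by omega) (by omega) ?_⟩
      by_contra hc
      exact h.2 ⟨h.1, by omega⟩
    · simp only [mem_filter, mem_univ, true_and, SimpleGraph.compl_adj, hG, rel] at hu hx ⊢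
      exact fun h => h.2 ⟨h.1, by omega⟩
    · have e1 := mk1 3 (by omega) _ (b2 u)
      have e2 := mk2 3 (by omega) _ (b2 u)
      have e3 := mk1 3 (by omega) _ (b2 u')
      have e4 := mk2 3 (by omega) _ (b2 u')
      simp only [mem_filter, mem_univ, true_and] at hu hu'
      have e5 : ix u ≠ ix u' := fun h => hne (inj _ _ (by omega) (by omega) h)
      have := b1 w
      obtain h | h | h | h : ty w = 0 ∨ ty w = 1 ∨ ty w = 2 ∨ ty w = 3 := by omega
      · by_cases h' : ix w = ix u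
        · exact Or.inr (Or.inr (Or.inl (nd' _ w (by simp [hu', h, h', rel, e5]))))
        · exact Or.inl (nd' _ w (by simp [hu, h, h', rel]))
      · exact Or.inr (Or.inl (nd' _ w (by simp [e1, h, rel])))
      · by_cases h' : ix w = ix u
        · exact Or.inr (Or.inr (Or.inl (nd' _ w (by simp [hu', h, h', rel, e5]))))
        · exact Or.inl (nd' _ w (by simp [hu, h, h', rel]))
      · by_cases h' : ix w = ix u
        · exact Or.inr (Or.inr (Or.inr (nd' _ w (by simp [e3, e4, h, h', rel, e5]))))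
        · exact Or.inr (Or.inl (nd' _ w (by simp [e1, e2, h, h', rel])))
  refine le_trans ?_ (le_sup (f := fun G : SimpleGraph (Fin n) => Gam G 2 * Gam Gᶜ 2) (mem_univ G))
  rw [pow_two]
  exact Nat.mul_le_mul ((cd 0 (by omega)).trans (le_sup (f := card) (mem_filter.2 ⟨mem_univ _, hX⟩)))
    ((cd 2 (by omega)).trans (le_sup (f := card) (mem_filter.2 ⟨mem_univ _, hY⟩)))

lemma all_parts :
    (∀ n k : ℕ, 2 ≤ k → 16 * g n k ≤ n ^ 2 + 200 * n * (Nat.sqrt n + 1)) ∧
    (∀ n : ℕ, 8 ≤ n → (n / 4) ^ 2 ≤ g n 2) :=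
  ⟨fun _ _ hk => upper hk, fun _ hn => lower hn⟩

theorem result (n : ℕ) (hn : 8 ≤ n) :
    (n / 4) ^ 2 ≤ g n 2 ∧ 16 * g n 2 ≤ n ^ 2 + 200 * n * (Nat.sqrt n + 1) :=
  ⟨all_parts.2 n hn, all_parts.1 n 2 le_rfl⟩

end Pool.Agent.Results.MP_213d49_co.Sixteenth
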