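import Mathlib
import Pool.Agent.Results.MP_213d49_co.Sixteenth

namespace Pool.Agent.Results.MP_213d49_co.AllK

open Pool.Agent.Results.MP_213d49_co.Sixteenth

theorem result (n k : ℕ) (hk : 3 ≤ k) : 16 * g n k ≤ n ^ 2 + 200 * n * (Nat.sqrt n + 1) :=
  all_parts.1 n k (by omega)

end Pool.Agent.Results.MP_213d49_co.AllK
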